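import Pool.Agent.Q230.IP.St2

/-!
# Project IP: assignments on the names, tools for the job ISO
-/

namespace Pool.Agent.Q102.IP

open Pool.Agent.NPC Pool.Agent.NPC.ER Pool.Agent.NPC.H612 Pool.Agent.Q230.IP

theorem env_get {W : List ℕ} (hW : W.Nodup) (f : Fin W.length → ℝ) (i : Fin W.length) :
    env W f W[i] = f i := by
  unfold env
  have h : W.idxOf W[i] = i := hW.idxOf_getElem i i.2
  rw [h]
  exact xt_fin f i

theorem env_not_mem {W : List ℕ} (f : Fin W.length → ℝ) {k : ℕ} (hk : k ∉ W) :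
    env W f k = 0 := by
  unfold env xt
  rw [dif_neg]
  rw [List.idxOf_eq_length hk]
  exact lt_irrefl _

theorem exists_idx {W : List ℕ} {k : ℕ} (hk : k ∈ W) : ∃ i : Fin W.length, W[i] = k :=
  ⟨⟨W.idxOf k, List.idxOf_lt_length_of_mem hk⟩, List.getElem_idxOf _⟩

/-- The point given by an assignment. -/
def pt (W : List ℕ) (ν : ℕ → ℝ) : Fin W.length → ℝ := fun i => ν W[i]

theorem env_pt {W : List ℕ} (hW : W.Nodup) (ν : ℕ → ℝ) {k : ℕ} (hk : k ∈ W) :
    env W (pt W ν) k = ν k := by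
  obtain ⟨i, rfl⟩ := exists_idx hk
  rw [env_get hW]
  rfl

theorem wval_ren (W : List ℕ) (f : Fin W.length → ℝ) (q : PolyData) :
    wval (xt f) (ren W q) = wval (env W f) q := by
  unfold wval ren env
  rw [List.map_map]
  congr 1
  apply List.map_congr_left
  intro a _
  simp only [Function.comp, List.map_map]
  rfl

theorem wval_single (x : ℕ → ℝ) (k : ℕ) : wval x [(1, [k])] = x k := by
  simp [wval]

/-- The main part depends only on the values at the names which are not `6` modulo `8`. -/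
theorem mainC_congr (hn : S_nms) {n T La p g : ℕ} {A : Dat n} {ν ν' : ℕ → ℝ} (h5 : S_pos)
    (h : ∀ k ∈ names n T La, k % 8 ≠ 6 → ν k = ν' k)
    (hM : MainC n T La p g A ν) : MainC n T La p g A ν' := by
  have hm := (hn n T La).2
  obtain ⟨a1, a2, a3, r, hr, t, a4, a5⟩ := hM
  have e1 : ∀ j < La, ν (8 * j) = ν' (8 * j) := fun j hj =>
    h _ ((hm _).mpr (Or.inl ⟨j, hj, rfl⟩)) (by omega)
  have e2 : ∀ j < LL n T, ν (8 * j + 1) = ν' (8 * j + 1) := fun j hj =>
    h _ ((hm _).mpr (Or.inr (Or.inl ⟨j, hj, rfl⟩))) (by omega)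
  have e3 : ∀ l < n, ν (8 * l + 2) = ν' (8 * l + 2) := fun l hl =>
    h _ ((hm _).mpr (Or.inr (Or.inr (Or.inl ⟨l, hl, rfl⟩)))) (by omega)
  have e4 : ∀ i ≤ n, ∀ l < n, ν (bV n i + 8 * l) = ν' (bV n i + 8 * l) := fun i hi l hl =>
    h _ ((hm _).mpr (Or.inr (Or.inr (Or.inr (Or.inl ⟨i, hi, l, hl, rfl⟩))))) (by
      unfold bV; omega)
  have e5 : ∀ i ≤ n, ∀ t < T, ∀ j < 2 * n + 7, ν (nu n (bU n T i) t j) =
      ν' (nu n (bU n T i) t j) := fun i hi t ht j hj =>
    h _ ((hm _).mpr (Or.inr (Or.inr (Or.inr (Or.inr (Or.inl ⟨i, hi, t, ht, j, hj, rfl⟩)))))) (by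
      unfold nu bU; omega)
  have e6 : ∀ i ≤ n, ν (8 * i + 5) = ν' (8 * i + 5) := fun i hi =>
    h _ ((hm _).mpr (Or.inr (Or.inr (Or.inr (Or.inr (Or.inr (Or.inl ⟨i, hi, rfl⟩))))))) (by omega)
  have e7 : ν 7 = ν' 7 :=
    h _ ((hm _).mpr (Or.inr (Or.inr (Or.inr (Or.inr (Or.inr (Or.inr (Or.inr rfl)))))))) (by omega)
  have d1 : ∀ i ≤ n, dv n ν i = dv n ν' i := fun i hi => funext fun l => e4 i hi l l.2
  refine ⟨fun j hj => (e1 j hj).symm.trans (a1 j hj), fun i => ?_, ?_, r, hr, t, ?_, ?_⟩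
  · exact (e2 _ ((h5 n T).2.1 i)).symm.trans (a2 i)
  · intro i hi t ht j hj
    rw [← e5 i hi t ht j hj, ← d1 i hi]
    exact a3 i hi t ht j hj
  · have f1 : (fun l : Fin n => ν' (8 * (l : ℕ) + 2)) = fun l : Fin n => ν (8 * (l : ℕ) + 2) :=
      funext fun l => (e3 l l.2).symm
    have f2 : (fun i : Fin (r + 1) => dv n ν' i) = fun i : Fin (r + 1) => dv n ν i :=
      funext fun i => (d1 i (by have := i.2; omega)).symm
    have f3 : (fun i : Fin (r + 1) => ν' (8 * (i : ℕ) + 5)) =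
        fun i : Fin (r + 1) => ν (8 * (i : ℕ) + 5) :=
      funext fun i => (e6 i (by have := i.2; omega)).symm
    rw [f1, f2, f3, ← e7]
    exact a4
  · intro i hi hin
    refine ⟨(e6 i hin).symm.trans (a5 i hi hin).1, fun l hl => ?_⟩
    exact (e4 i hin l hl).symm.trans ((a5 i hi hin).2 l hl)

/-- Every index smaller than `LL n T` is the position of a parameter. -/
theorem pos_surj (h5 : S_pos) {n T j : ℕ} (hj : j < LL n T) : ∃ i : Par n T, pos n T i = j := by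
  obtain ⟨h1, h2, h3⟩ := h5 n T
  have hb : Function.Bijective (fun i : Par n T => (⟨pos n T i, h2 i⟩ : Fin (LL n T))) := by
    rw [Fintype.bijective_iff_injective_and_card]
    refine ⟨fun a b hab => h1 (congrArg Fin.val hab), ?_⟩
    rw [h3, Fintype.card_fin]
  obtain ⟨i, hi⟩ := hb.2 ⟨j, hj⟩
  exact ⟨i, congrArg Fin.val hi⟩

end Pool.Agent.Q102.IP
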