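import Pool.Agent.Q102.IP.Env

/-!
# Project IP, job ISO: isolated points of the set of the formula
-/

namespace Pool.Agent.Q102.IP

open Pool.Agent.NPC Pool.Agent.NPC.ER Pool.Agent.NPC.H612 Pool.Agent.Q230.IP

theorem mem_names6 {n T La k : ℕ} (hk : k ∈ names n T La) (h6 : k % 8 = 6) :
    ∃ j < 1 + n + T * (2 * n + 7), k = 8 * j + 6 := by
  unfold names at hk
  simp only [List.mem_append, List.mem_map, List.mem_range, List.mem_singleton] at hk
  rcases hk with ⟨j, hj, h⟩ | ⟨j, hj, h⟩ | ⟨j, hj, h⟩ | ⟨j, hj, h⟩ | ⟨j, hj, h⟩ | ⟨j, hj, h⟩ |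
    ⟨j, hj, h⟩ | h
  all_goals try omega
  exact ⟨j, hj, h.symm⟩

theorem names6_mem {n T La j : ℕ} (hj : j < 1 + n + T * (2 * n + 7)) :
    8 * j + 6 ∈ names n T La := by
  unfold names
  simp only [List.mem_append, List.mem_map, List.mem_range, List.mem_singleton]
  exact Or.inr (Or.inr (Or.inr (Or.inr (Or.inr (Or.inr (Or.inl ⟨j, hj, rfl⟩))))))

theorem zeroQ_val {n T La : ℕ} (hW : (names n T La).Nodup) (f : Fin (names n T La).length → ℝ) :
    (zeroQ (names n T La) n T).Val (wval (xt f)) ↔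
      ∀ i : Fin (names n T La).length, (names n T La)[i] % 8 = 6 → f i = 0 := by
  unfold zeroQ
  rw [val_qall _ (by simp [wval])]
  simp only [List.mem_map, List.mem_range, forall_exists_index, and_imp]
  constructor
  · intro h i hi
    obtain ⟨j, hj, hj'⟩ := mem_names6 (List.getElem_mem i.2) hi
    have h1 := h _ j hj rfl
    unfold eqW at h1
    simp only [QF.Val] at h1
    rw [wval_ren, wval_single, ← hj'] at h1
    rw [← env_get hW f i]
    exact h1
  · rintro h φ j hj rfl
    unfold eqW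
    simp only [QF.Val]
    rw [wval_ren, wval_single]
    obtain ⟨i, hi⟩ := exists_idx (names6_mem (n := n) (T := T) (La := La) hj)
    rw [← hi, env_get hW]
    exact h i (by rw [hi]; omega)

theorem nu_bUt (n t j : ℕ) : nu n (bUt n) t j = 8 * (1 + n + (t * (2 * n + 7) + j)) + 6 := by
  unfold nu bUt; ring

theorem bVt_add (l : ℕ) : bVt + 8 * l = 8 * (1 + l) + 6 := by
  unfold bVt; ring

theorem lin_lt {n T t j : ℕ} (ht : t < T) (hj : j < 2 * n + 7) :
    t * (2 * n + 7) + j < T * (2 * n + 7) := by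
  calc t * (2 * n + 7) + j < t * (2 * n + 7) + (2 * n + 7) := by omega
    _ = (t + 1) * (2 * n + 7) := by ring
    _ ≤ T * (2 * n + 7) := Nat.mul_le_mul_right _ ht

/-- `ViolC` depends only on the test coordinates and on the names `8 l + 2`, and is invariant
under scaling. -/
theorem violC_scale {n T : ℕ} {A : Dat n} {p : Par n T → ℝ} {K c : ℝ} {ν ν' : ℕ → ℝ}
    (hc : 0 < c) (h6 : ν' 6 = c * ν 6) (hv : ∀ l < n, ν' (bVt + 8 * l) = c * ν (bVt + 8 * l))
    (hu : ∀ t < T, ∀ j < 2 * n + 7, ν' (nu n (bUt n) t j) = c * ν (nu n (bUt n) t j))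
    (hx : ∀ l < n, ν' (8 * l + 2) = ν (8 * l + 2)) (h : ViolC A p K ν) : ViolC A p K ν' := by
  obtain ⟨a, b, e⟩ := h
  have ht : tp n ν' = tp n ν := by
    funext l
    unfold tp
    rw [hv l l.2, h6, mul_div_mul_left _ _ hc.ne']
  have hX : (fun l : Fin n => ν' (8 * (l : ℕ) + 2)) = fun l : Fin n => ν (8 * (l : ℕ) + 2) :=
    funext fun l => hx l l.2
  refine ⟨by rw [h6]; exact mul_pos hc a, ⟨?_, ?_⟩, ?_⟩
  · intro l
    rw [hv l l.2, h6, ht, b.1 l, mul_assoc]
  · intro t htT j hj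
    rw [hu t htT j hj, h6, ht, b.2 t htT j hj, mul_assoc]
  · rw [ht, hX]
    exact e

theorem iso_ha (h3 : S_nms) (h5 : S_pos) {n T La p g : ℕ} (A : Dat n) 
    (f f' : Fin (names n T La).length → ℝ)
    (h : ∀ i : Fin (names n T La).length, ¬ (names n T La)[i] % 8 = 6 → f i = f' i)
    (hM : MainC n T La p g A (env (names n T La) f)) :
    MainC n T La p g A (env (names n T La) f') := by
  apply mainC_congr h3 h5 _ hM
  intro k hk hk6
  obtain ⟨i, rfl⟩ := exists_idx hk
  rw [env_get (h3 n T La).1, env_get (h3 n T La).1]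
  exact h i hk6

theorem iso_hb (h3 : S_nms) (h5 : S_pos) {n T La p g : ℕ} (A : Dat n)
    (hfin : ∀ (r : ℕ) (_ : r ≤ n) (t : Fin T),
    {y : (Fin n → ℝ) × ((Fin (r + 1) → Fin n → ℝ) × ((Fin (r + 1) → ℝ) × ℝ)) |
      Kkt A (pv fun k => zz (p + g * k)) r t y.1 y.2.1 y.2.2.1 y.2.2.2}.Finite) :
    {f : Fin (names n T La).length → ℝ | MainC n T La p g A (env (names n T La) f) ∧
      ∀ i : Fin (names n T La).length, (names n T La)[i] % 8 = 6 → f i = 0}.Finite := by
  set W := names n T La with hW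
  have hWn : W.Nodup := (h3 n T La).1
  set S : (Σ r : Fin (n + 1), Fin T) → Set (Fin W.length → ℝ) := fun rt =>
    {f | (MainC n T La p g A (env W f) ∧ ∀ i : Fin W.length, W[i] % 8 = 6 → f i = 0) ∧
      Kkt A (pv fun k => zz (p + g * k)) rt.1 rt.2 (fun l => env W f (8 * (l : ℕ) + 2))
        (fun i : Fin (rt.1 + 1) => dv n (env W f) i) (fun i => env W f (8 * (i : ℕ) + 5))
        (env W f 7) ∧
      ∀ i, (rt.1 : ℕ) < i → i ≤ n → env W f (8 * i + 5) = 0 ∧
        ∀ l < n, env W f (bV n i + 8 * l) = 0} with hS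
  have hsub : {f : Fin W.length → ℝ | MainC n T La p g A (env W f) ∧
      ∀ i : Fin W.length, W[i] % 8 = 6 → f i = 0} ⊆ ⋃ rt, S rt := by
    intro f hf
    obtain ⟨a1, a2, a3, r, hr, t, a4, a5⟩ := hf.1
    rw [Set.mem_iUnion]
    exact ⟨⟨⟨r, Nat.lt_succ_of_le hr⟩, t⟩, hf, a4, a5⟩
  refine Set.Finite.subset (Set.finite_iUnion fun rt => ?_) hsub
  obtain ⟨⟨r, hr⟩, t⟩ := rt
  have hr' : r ≤ n := Nat.le_of_lt_succ hr
  refine Set.Finite.of_injOn (f := fun f : Fin W.length → ℝ =>
    ((fun l : Fin n => env W f (8 * (l : ℕ) + 2)),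
      ((fun i : Fin (r + 1) => dv n (env W f) i),
        ((fun i : Fin (r + 1) => env W f (8 * (i : ℕ) + 5)), env W f 7)))) ?_ ?_ (hfin r hr' t)
  · intro f hf
    exact hf.2.1
  · intro f hf f' hf' he
    obtain ⟨⟨hM, h6⟩, hK, hz⟩ := hf
    obtain ⟨⟨hM', h6'⟩, hK', hz'⟩ := hf'
    simp only [Prod.mk.injEq] at he
    obtain ⟨ex, ev, el, eV⟩ := he
    obtain ⟨a1, a2, a3, _⟩ := hM
    obtain ⟨b1, b2, b3, _⟩ := hM'
    -- all coordinates agree
    have hvv : ∀ i ≤ n, ∀ l < n, env W f (bV n i + 8 * l) = env W f' (bV n i + 8 * l) := by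
      intro i hi l hl
      by_cases hir : i < r + 1
      · have := congrFun (congrFun ev ⟨i, hir⟩) ⟨l, hl⟩
        exact this
      · rw [(hz i (by simp only; omega) hi).2 l hl, (hz' i (by simp only; omega) hi).2 l hl]
    have hdv : ∀ i ≤ n, dv n (env W f) i = dv n (env W f') i := fun i hi =>
      funext fun l => hvv i hi l l.2
    have key : ∀ k ∈ W, k % 8 ≠ 6 → env W f k = env W f' k := by
      intro k hk hk6
      rcases ((h3 n T La).2 k).mp hk with ⟨j, hj, rfl⟩ | ⟨j, hj, rfl⟩ | ⟨l, hl, rfl⟩ |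
        ⟨i, hi, l, hl, rfl⟩ | ⟨i, hi, t, ht, j, hj, rfl⟩ | ⟨i, hi, rfl⟩ |
        (rfl | ⟨l, hl, rfl⟩ | ⟨t, ht, j, hj, rfl⟩) | rfl
      · rw [a1 j hj, b1 j hj]
      · obtain ⟨i, rfl⟩ := pos_surj h5 hj
        rw [a2, b2]
      · exact congrFun ex ⟨l, hl⟩
      · exact hvv i hi l hl
      · rw [a3 i hi t ht j hj, b3 i hi t ht j hj, hdv i hi]
      · by_cases hir : i < r + 1
        · exact congrFun el ⟨i, hir⟩
        · rw [(hz i (by simp only; omega) hi).1, (hz' i (by simp only; omega) hi).1]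
      · exact absurd rfl hk6
      · rw [bVt_add] at hk6; omega
      · rw [nu_bUt] at hk6; omega
      · exact eV
    funext i
    by_cases hi : W[i] % 8 = 6
    · rw [h6 i hi, h6' i hi]
    · have := key W[i] (List.getElem_mem i.2) hi
      rwa [env_get hWn, env_get hWn] at this

theorem iso_hc (h3 : S_nms) {n T La : ℕ} (A : Dat n) (p : Par n T → ℝ) (K : ℝ)
    (f f' : Fin (names n T La).length → ℝ) (c : ℝ) (hc : 0 < c)
    (h1 : ∀ i : Fin (names n T La).length, (names n T La)[i] % 8 = 6 → f' i = c * f i)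
    (h2 : ∀ i : Fin (names n T La).length, ¬ (names n T La)[i] % 8 = 6 → f' i = f i)
    (hV : ViolC A p K (env (names n T La) f)) : ViolC A p K (env (names n T La) f') := by
  have hWn := (h3 n T La).1
  have e1 : ∀ k, k % 8 = 6 → env (names n T La) f' k = c * env (names n T La) f k := by
    intro k hk
    by_cases hkW : k ∈ names n T La
    · obtain ⟨i, rfl⟩ := exists_idx hkW
      rw [env_get hWn, env_get hWn]
      exact h1 i hk
    · rw [env_not_mem _ hkW, env_not_mem _ hkW, mul_zero]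
  have e2 : ∀ k, ¬ k % 8 = 6 → env (names n T La) f' k = env (names n T La) f k := by
    intro k hk
    by_cases hkW : k ∈ names n T La
    · obtain ⟨i, rfl⟩ := exists_idx hkW
      rw [env_get hWn, env_get hWn]
      exact h2 i hk
    · rw [env_not_mem _ hkW, env_not_mem _ hkW]
  apply violC_scale hc _ _ _ _ hV
  · exact e1 6 rfl
  · intro l _
    exact e1 _ (by rw [bVt_add]; omega)
  · intro t _ j _
    exact e1 _ (by rw [nu_bUt]; omega)
  · intro l _
    exact e2 _ (by omega)

/-- The assignment of a solution, with zero test coordinates. -/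
noncomputable def asg {n r : ℕ} (T p g : ℕ) (x : Fin n → ℝ) (v : Fin (r + 1) → Fin n → ℝ)
    (lam : Fin (r + 1) → ℝ) (V : ℝ) : ℕ → ℝ := fun k =>
  if k % 8 = 0 then zz (k / 8)
  else if k % 8 = 1 then (if k / 8 = 1 then zz (p + g * (k / 8)) else (zz (p + g * (k / 8)))⁻¹)
  else if k % 8 = 2 then (if h : k / 8 < n then x ⟨k / 8, h⟩ else 0)
  else if k % 8 = 3 then (if h : 0 < n then
    (if h' : k / 8 / n < r + 1 then v ⟨k / 8 / n, h'⟩ ⟨k / 8 % n, Nat.mod_lt _ h⟩ else 0) else 0)
  else if k % 8 = 4 then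
    uu ((k / 8 / (2 * n + 7)) % T) (if h' : k / 8 / (2 * n + 7) / T < r + 1 then
      v ⟨k / 8 / (2 * n + 7) / T, h'⟩ else 0) ^ (k / 8 % (2 * n + 7))
  else if k % 8 = 5 then (if h : k / 8 < r + 1 then lam ⟨k / 8, h⟩ else 0)
  else if k % 8 = 6 then 0
  else V

section asg

variable {n r : ℕ} (T p g : ℕ) (x : Fin n → ℝ) (v : Fin (r + 1) → Fin n → ℝ)
    (lam : Fin (r + 1) → ℝ) (V : ℝ)

theorem asg0 (j : ℕ) : asg T p g x v lam V (8 * j) = zz j := by
  unfold asg
  rw [if_pos (by omega), show 8 * j / 8 = j by omega]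

theorem asg1 (j : ℕ) : asg T p g x v lam V (8 * j + 1) =
    if j = 1 then zz (p + g * j) else (zz (p + g * j))⁻¹ := by
  unfold asg
  rw [if_neg (by omega), if_pos (by omega), show (8 * j + 1) / 8 = j by omega]

theorem asg2 (l : Fin n) : asg T p g x v lam V (8 * (l : ℕ) + 2) = x l := by
  unfold asg
  rw [if_neg (by omega), if_neg (by omega), if_pos (by omega)]
  have h : (8 * (l : ℕ) + 2) / 8 = l := by omega
  simp only [h]
  rw [dif_pos l.2]

theorem asg3 (i l : ℕ) (hl : l < n) : asg T p g x v lam V (bV n i + 8 * l) =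
    if h : i < r + 1 then v ⟨i, h⟩ ⟨l, hl⟩ else 0 := by
  have h0 : bV n i + 8 * l = 8 * (i * n + l) + 3 := by unfold bV; ring
  have h1 : (8 * (i * n + l) + 3) / 8 = i * n + l := by omega
  have h2 : (i * n + l) / n = i := by
    rw [mul_comm, Nat.mul_add_div (by omega), Nat.div_eq_of_lt hl, add_zero]
  have h3 : (i * n + l) % n = l := by
    rw [mul_comm, Nat.mul_add_mod, Nat.mod_eq_of_lt hl]
  rw [h0]
  unfold asg
  rw [if_neg (by omega), if_neg (by omega), if_neg (by omega), if_pos (by omega)]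
  simp only [h1, h2, h3]
  rw [dif_pos (by omega)]

theorem asg4 (i t j : ℕ) (ht : t < T) (hj : j < 2 * n + 7) :
    asg T p g x v lam V (nu n (bU n T i) t j) =
    uu t (if h : i < r + 1 then v ⟨i, h⟩ else 0) ^ j := by
  have h0 : nu n (bU n T i) t j = 8 * ((i * T + t) * (2 * n + 7) + j) + 4 := by
    unfold nu bU; ring
  have h1 : (8 * ((i * T + t) * (2 * n + 7) + j) + 4) / 8 = (i * T + t) * (2 * n + 7) + j := by
    omega
  have h2 : ((i * T + t) * (2 * n + 7) + j) / (2 * n + 7) = i * T + t := by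
    rw [mul_comm, Nat.mul_add_div (by omega), Nat.div_eq_of_lt hj, add_zero]
  have h3 : ((i * T + t) * (2 * n + 7) + j) % (2 * n + 7) = j := by
    rw [mul_comm, Nat.mul_add_mod, Nat.mod_eq_of_lt hj]
  have h4 : (i * T + t) / T = i := by
    rw [mul_comm, Nat.mul_add_div (by omega), Nat.div_eq_of_lt ht, add_zero]
  have h5 : (i * T + t) % T = t := by
    rw [mul_comm, Nat.mul_add_mod, Nat.mod_eq_of_lt ht]
  rw [h0]
  unfold asg
  rw [if_neg (by omega), if_neg (by omega), if_neg (by omega), if_neg (by omega),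
    if_pos (by omega)]
  simp only [h1, h2, h3, h4, h5]

theorem asg5 (i : ℕ) : asg T p g x v lam V (8 * i + 5) =
    if h : i < r + 1 then lam ⟨i, h⟩ else 0 := by
  unfold asg
  rw [if_neg (by omega), if_neg (by omega), if_neg (by omega), if_neg (by omega),
    if_neg (by omega), if_pos (by omega)]
  have h : (8 * i + 5) / 8 = i := by omega
  simp only [h]

theorem asg6 (k : ℕ) (hk : k % 8 = 6) : asg T p g x v lam V k = 0 := by
  unfold asg
  rw [if_neg (by omega), if_neg (by omega), if_neg (by omega), if_neg (by omega),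
    if_neg (by omega), if_neg (by omega), if_pos hk]

theorem asg7 : asg T p g x v lam V 7 = V := by
  unfold asg
  rw [if_neg (by omega), if_neg (by omega), if_neg (by omega), if_neg (by omega),
    if_neg (by omega), if_neg (by omega), if_neg (by omega)]

end asg

theorem asg_mainC (h5 : S_pos) {n r : ℕ} (T La p g : ℕ) (A : Dat n) (hr : r ≤ n) (t : Fin T)
    (x : Fin n → ℝ) (v : Fin (r + 1) → Fin n → ℝ) (lam : Fin (r + 1) → ℝ) (V : ℝ)
    (hK : Kkt A (pv fun k => zz (p + g * k)) r t x v lam V) :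
    MainC n T La p g A (asg T p g x v lam V) := by
  have hdv : ∀ i, dv n (asg T p g x v lam V) i = if h : i < r + 1 then v ⟨i, h⟩ else 0 := by
    intro i
    funext l
    unfold dv
    rw [asg3 T p g x v lam V i l l.2]
    split_ifs
    · rfl
    · rfl
  refine ⟨fun j _ => asg0 .., fun i => ?_, ?_, r, hr, t, ?_, ?_⟩
  · rw [asg1]
    have h1 : pos n T (Sum.inl 1) = 1 := rfl
    unfold pv
    by_cases hi : i = Sum.inl 1
    · rw [if_pos hi, hi, h1, if_pos rfl]
    · rw [if_neg hi, if_neg]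
      intro h
      exact hi ((h5 n T).1 (h.trans h1.symm))
  · intro i _ t ht j hj
    rw [asg4 T p g x v lam V i t j ht hj, hdv]
  · have f1 : (fun l : Fin n => asg T p g x v lam V (8 * (l : ℕ) + 2)) = x :=
      funext fun l => asg2 ..
    have f2 : (fun i : Fin (r + 1) => dv n (asg T p g x v lam V) i) = v := by
      funext i
      rw [hdv, dif_pos i.2]
    have f3 : (fun i : Fin (r + 1) => asg T p g x v lam V (8 * (i : ℕ) + 5)) = lam := by
      funext i
      rw [asg5, dif_pos i.2]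
    rw [f1, f2, f3, asg7]
    exact hK
  · intro i hi _
    refine ⟨?_, fun l hl => ?_⟩
    · rw [asg5, dif_neg (by omega)]
    · rw [asg3 T p g x v lam V i l hl, dif_neg (by omega)]

/-- The assignment with a test point. -/
noncomputable def tst {n : ℕ} (ν : ℕ → ℝ) (w : Fin n → ℝ) : ℕ → ℝ := fun k =>
  if k % 8 = 6 then
    (if k / 8 = 0 then 1 else if h : k / 8 - 1 < n then w ⟨k / 8 - 1, h⟩ else
      uu ((k / 8 - 1 - n) / (2 * n + 7)) w ^ ((k / 8 - 1 - n) % (2 * n + 7)))
  else ν k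

section tst

variable {n : ℕ} (ν : ℕ → ℝ) (w : Fin n → ℝ)

theorem tst6 : tst ν w 6 = 1 := by
  unfold tst
  rw [if_pos (by norm_num), if_pos (by norm_num)]

theorem tstV (l : Fin n) : tst ν w (bVt + 8 * (l : ℕ)) = w l := by
  rw [bVt_add]
  unfold tst
  have h : (8 * (1 + (l : ℕ)) + 6) / 8 - 1 = l := by omega
  rw [if_pos (by omega), if_neg (by omega)]
  simp only [h]
  rw [dif_pos l.2]

theorem tstU (t j : ℕ) (hj : j < 2 * n + 7) : tst ν w (nu n (bUt n) t j) = uu t w ^ j := by
  rw [nu_bUt]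
  have h1 : (8 * (1 + n + (t * (2 * n + 7) + j)) + 6) / 8 - 1 = n + (t * (2 * n + 7) + j) := by
    omega
  have h0 : n + (t * (2 * n + 7) + j) - n = t * (2 * n + 7) + j := by omega
  have h2 : (t * (2 * n + 7) + j) / (2 * n + 7) = t := by
    rw [mul_comm, Nat.mul_add_div (by omega), Nat.div_eq_of_lt hj, add_zero]
  have h3 : (t * (2 * n + 7) + j) % (2 * n + 7) = j := by
    rw [mul_comm, Nat.mul_add_mod, Nat.mod_eq_of_lt hj]
  unfold tst
  rw [if_pos (by omega), if_neg (by omega)]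
  simp only [h1]
  rw [dif_neg (by omega), h0, h2, h3]

theorem tst_ne {k : ℕ} (hk : k % 8 ≠ 6) : tst ν w k = ν k := by
  unfold tst
  rw [if_neg hk]

end tst

theorem tst_viol (h3 : S_nms) {n T La : ℕ} (A : Dat n) (p : Par n T → ℝ) (K : ℝ)
    (ν : ℕ → ℝ) (w : Fin n → ℝ)
    (h : A.FF p (fun l => ν (8 * (l : ℕ) + 2)) w < K) :
    ViolC A p K (env (names n T La) (pt (names n T La) (tst ν w))) := by
  have hWn := (h3 n T La).1
  have hm := (h3 n T La).2
  have e6 : env (names n T La) (pt (names n T La) (tst ν w)) 6 = 1 := by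
    rw [env_pt hWn _ ((hm _).mpr (Or.inr (Or.inr (Or.inr (Or.inr (Or.inr (Or.inr
      (Or.inl (Or.inl rfl))))))))), tst6]
  have eV : ∀ l : Fin n, env (names n T La) (pt (names n T La) (tst ν w)) (bVt + 8 * (l : ℕ))
      = w l := fun l => by
    rw [env_pt hWn _ ((hm _).mpr (Or.inr (Or.inr (Or.inr (Or.inr (Or.inr (Or.inr
      (Or.inl (Or.inr (Or.inl ⟨l, l.2, rfl⟩)))))))))), tstV]
  have eU : ∀ t < T, ∀ j < 2 * n + 7, env (names n T La) (pt (names n T La) (tst ν w))
      (nu n (bUt n) t j) = uu t w ^ j := fun t ht j hj => by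
    rw [env_pt hWn _ ((hm _).mpr (Or.inr (Or.inr (Or.inr (Or.inr (Or.inr (Or.inr
      (Or.inl (Or.inr (Or.inr ⟨t, ht, j, hj, rfl⟩)))))))))), tstU ν w t j hj]
  have eX : ∀ l : Fin n, env (names n T La) (pt (names n T La) (tst ν w)) (8 * (l : ℕ) + 2)
      = ν (8 * (l : ℕ) + 2) := fun l => by
    rw [env_pt hWn _ ((hm _).mpr (Or.inr (Or.inr (Or.inl ⟨l, l.2, rfl⟩)))),
      tst_ne ν w (by omega)]
  have ht : tp n (env (names n T La) (pt (names n T La) (tst ν w))) = w := by
    funext l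
    unfold tp
    rw [eV, e6, div_one]
  refine ⟨by rw [e6]; norm_num, ⟨?_, ?_⟩, ?_⟩
  · intro l
    rw [eV, e6, ht, one_mul]
  · intro t htT j hj
    rw [eU t htT j hj, e6, ht, one_mul]
  · rw [ht, funext eX]
    exact h

/-- **Job ISO.** -/
theorem iso (h1 : S_mnq) (h2 : S_vlq) (h3 : S_nms) (h4 : S_geo) (h5 : S_pos) : S_iso := by
  intro n T La p g k el gs o hLa hLL hk hG hfin
  have hWn : (names n T La).Nodup := (h3 n T La).1
  have hm := (h3 n T La).2
  set A := mkDat n el o gs with hA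
  have hgal : gallery (names n T La).length (isoQ (names n T La) n T La p g k el gs o) =
      {f | MainC n T La p g A (env (names n T La) f) ∧
        ((∀ i : Fin (names n T La).length, (names n T La)[i] % 8 = 6 → f i = 0) ∨
          ViolC A (T := T) (pv fun k => zz (p + g * k)) (zz k) (env (names n T La) f))} := by
    ext f
    have e1 := h1 (names n T La) f n T La p g el gs o hLa hLL hG
    have e2 := zeroQ_val hWn f
    show (isoQ (names n T La) n T La p g k el gs o).Val (wval (xt f)) ↔ _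
    unfold isoQ
    simp only [QF.Val]
    rw [e1, e2]
    constructor
    · rintro ⟨a, b⟩
      refine ⟨a, b.imp id fun hv => ?_⟩
      have := (h2 (names n T La) f n T k el gs o (pv fun k => zz (p + g * k)) hG a.2.1).mp hv
      rwa [a.1 k hk] at this
    · rintro ⟨a, b⟩
      refine ⟨a, b.imp id fun hv => ?_⟩
      apply (h2 (names n T La) f n T k el gs o (pv fun k => zz (p + g * k)) hG a.2.1).mpr
      rwa [a.1 k hk]
  rw [hgal, h4 (names n T La).length (fun i => (names n T La)[i] % 8 = 6)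
    (fun f => MainC n T La p g A (env (names n T La) f))
    (fun f => ViolC A (T := T) (pv fun k => zz (p + g * k)) (zz k) (env (names n T La) f))
    (fun f f' h => ⟨iso_ha h3 h5 A f f' h, iso_ha h3 h5 A f' f (fun i hi => (h i hi).symm)⟩)
    (iso_hb h3 h5 A hfin)
    (fun f f' c hc e1 e2 hV => iso_hc h3 A _ _ f f' c hc e1 e2 hV)
    (fun f hV => by
      have h6 := hV.1
      by_cases h : 6 ∈ names n T La
      · obtain ⟨i, hi⟩ := exists_idx h
        refine ⟨i, by rw [hi], ?_⟩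
        rw [← env_get hWn f i, hi]
        exact h6.ne'
      · rw [env_not_mem _ h] at h6
        exact absurd h6 (lt_irrefl _))]
  constructor
  · rintro ⟨f, hM, hT, hno⟩
    obtain ⟨a1, a2, a3, r, hr, t, a4, a5⟩ := hM
    refine ⟨r, hr, t, _, _, _, _, a4, fun w => ?_⟩
    by_contra hlt
    rw [not_le] at hlt
    apply hno
    refine ⟨pt (names n T La) (tst (env (names n T La) f) w), fun i hi => ?_, ?_⟩
    · show tst (env (names n T La) f) w (names n T La)[i] = f i
      rw [tst_ne _ _ hi, env_get hWn]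
    · exact tst_viol h3 A _ _ _ w hlt
  · rintro ⟨r, hr, t, x, v, lam, V, hK, hall⟩
    refine ⟨pt (names n T La) (asg T p g x v lam V), ?_, ?_, ?_⟩
    · apply mainC_congr h3 h5 _ (asg_mainC h5 T La p g A hr t x v lam V hK)
      intro k hk _
      rw [env_pt hWn _ hk]
    · intro i hi
      exact asg6 T p g x v lam V _ hi
    · rintro ⟨f, hf, hV⟩
      have hX : (fun l : Fin n => env (names n T La) f (8 * (l : ℕ) + 2)) = x := by
        funext l
        obtain ⟨i, hi⟩ := exists_idx ((hm (8 * (l : ℕ) + 2)).mpr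
          (Or.inr (Or.inr (Or.inl ⟨l, l.2, rfl⟩))))
        rw [← hi, env_get hWn, hf i (by rw [hi]; omega)]
        show asg T p g x v lam V (names n T La)[i] = x l
        rw [hi, asg2]
      have h6 := hV.2.2
      rw [hX] at h6
      exact absurd h6 (not_lt_of_ge (hall _))

end Pool.Agent.Q102.IP
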