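import Pool.Agent.Q230.IP.St2

/-!
# Project IP, job PLL: the lists of terms are computable in polynomial time
-/

namespace Pool.Agent.NPC.Q102IP

open Pool.Agent.NPC Pool.Agent.NPC.ER Pool.Agent.NPC.H612 Pool.Agent.Q230.IP

variable {α β γ : Type} [TEnc α] [TEnc β] [TEnc γ]

theorem lift {f : α → β} (hf : Poly f) : Poly (fun p : α × γ => f p.1) :=
  hf.comp (Poly.fst Poly.id)

theorem ulift {f : α → ℕ} (hf : UPoly f) : UPoly (fun p : α × γ => f p.1) :=
  UPoly.comp hf (Poly.fst Poly.id)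

theorem last : Poly (fun p : α × β => p.2) := Poly.snd Poly.id

/-! ### Integers -/

theorem int_cast {m : α → ℕ} (hm : Poly m) : Poly (fun a => ((m a : ℕ) : ℤ)) :=
  (poly_int_sub hm (Poly.const 0)).congr fun a => by simp

theorem int_sign {c : α → ℤ} (hc : Poly c) : Poly (fun a => decide (c a < 0)) := by
  have : Poly (fun a => (decide (c a < 0), (c a).natAbs)) := hc
  exact Poly.fst this

theorem int_abs {c : α → ℤ} (hc : Poly c) : Poly (fun a => (c a).natAbs) := by
  have : Poly (fun a => (decide (c a < 0), (c a).natAbs)) := hc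
  exact Poly.snd this

theorem int_mk {b : α → Bool} {m : α → ℕ} (hb : Poly b) (hm : Poly m) :
    Poly (fun a => bif b a then -(m a : ℤ) else (m a : ℤ)) := by
  refine (poly_int_sub (Poly.cond hb (Poly.const 0) hm) (Poly.cond hb hm (Poly.const 0))).congr
    fun a => ?_
  cases b a <;> simp

theorem int_neg {c : α → ℤ} (hc : Poly c) : Poly (fun a => - c a) := by
  refine (int_mk (Poly.not (int_sign hc)) (int_abs hc)).congr fun a => ?_
  by_cases h : c a < 0
  · simp only [h, decide_true, Bool.not_true, cond_false]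
    omega
  · simp only [h, decide_false, Bool.not_false, cond_true]
    omega

theorem int_mul {c c' : α → ℤ} (hc : Poly c) (hc' : Poly c') : Poly (fun a => c a * c' a) := by
  refine (int_mk (Poly.xor (int_sign hc) (int_sign hc')) (Poly.mul (int_abs hc)
    (int_abs hc'))).congr fun a => ?_
  have e1 : c a = if c a < 0 then -((c a).natAbs : ℤ) else ((c a).natAbs : ℤ) := by
    split_ifs <;> omega
  have e2 : c' a = if c' a < 0 then -((c' a).natAbs : ℤ) else ((c' a).natAbs : ℤ) := by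
    split_ifs <;> omega
  conv_rhs => rw [e1, e2]
  by_cases h : c a < 0 <;> by_cases h' : c' a < 0 <;> simp [h, h']

/-! ### Lists -/

theorem replicateU {n : α → ℕ} (hn : UPoly n) (c : ℕ) :
    Poly (fun a => List.replicate (n a) c) := by
  refine (Poly.map (F := fun (_ : α) (_ : Unit) => c) hn (Poly.const c)).congr fun a => ?_
  simp

theorem p_negL {p : α → PolyData} (hp : Poly p) : Poly fun a => negL (p a) :=
  Poly.map (F := fun (_ : α) (b : ℤ × List ℕ) => (-b.1, b.2)) hp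
    (Poly.pair (int_neg (Poly.fst last)) (Poly.snd last))

theorem p_mulL {p q : α → PolyData} (hp : Poly p) (hq : Poly q) :
    Poly fun a => mulL (p a) (q a) := by
  unfold mulL
  refine Poly.flatMap (F := fun (a : α) (x : ℤ × List ℕ) =>
    (q a).map fun b => (x.1 * b.1, x.2 ++ b.2)) hp ?_
  refine Poly.map (F := fun (y : α × (ℤ × List ℕ)) (b : ℤ × List ℕ) =>
    (y.2.1 * b.1, y.2.2 ++ b.2)) (lift hq) ?_
  exact Poly.pair (int_mul (Poly.fst (Poly.snd (lift Poly.id))) (Poly.fst last))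
    (Poly.append (Poly.snd (Poly.snd (lift Poly.id))) (Poly.snd last))

theorem p_one {c : α → ℤ} {m : α → List ℕ} (hc : Poly c) (hm : Poly m) :
    Poly fun a => [(c a, m a)] :=
  Poly.cons (Poly.pair hc hm) (Poly.const [])

theorem p_two {c c' : α → ℤ} {m m' : α → List ℕ} (hc : Poly c) (hm : Poly m) (hc' : Poly c')
    (hm' : Poly m') : Poly fun a => [(c a, m a), (c' a, m' a)] :=
  Poly.cons (Poly.pair hc hm) (p_one hc' hm')

theorem l1 {a1 : α → ℕ} (h1 : Poly a1) : Poly fun a => [a1 a] := Poly.cons h1 (Poly.const [])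

theorem l2 {a1 a2 : α → ℕ} (h1 : Poly a1) (h2 : Poly a2) : Poly fun a => [a1 a, a2 a] :=
  Poly.cons h1 (l1 h2)

theorem l3 {a1 a2 a3 : α → ℕ} (h1 : Poly a1) (h2 : Poly a2) (h3 : Poly a3) :
    Poly fun a => [a1 a, a2 a, a3 a] := Poly.cons h1 (l2 h2 h3)

theorem l4 {a1 a2 a3 a4 : α → ℕ} (h1 : Poly a1) (h2 : Poly a2) (h3 : Poly a3) (h4 : Poly a4) :
    Poly fun a => [a1 a, a2 a, a3 a, a4 a] := Poly.cons h1 (l3 h2 h3 h4)

theorem l5 {a1 a2 a3 a4 a5 : α → ℕ} (h1 : Poly a1) (h2 : Poly a2) (h3 : Poly a3) (h4 : Poly a4)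
    (h5 : Poly a5) : Poly fun a => [a1 a, a2 a, a3 a, a4 a, a5 a] :=
  Poly.cons h1 (l4 h2 h3 h4 h5)

/-- `8 i + c`. -/
theorem e8 {i : α → ℕ} (hi : Poly i) (c : ℕ) : Poly fun a => 8 * i a + c :=
  Poly.add (Poly.mul (Poly.const 8) hi) (Poly.const c)

/-- `cv + 8 i`. -/
theorem c8 {i cv : α → ℕ} (hc : Poly cv) (hi : Poly i) : Poly fun a => cv a + 8 * i a :=
  Poly.add hc (Poly.mul (Poly.const 8) hi)

theorem p_nu {n cu t j : α → ℕ} (hn : Poly n) (hcu : Poly cu) (ht : Poly t) (hj : Poly j) :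
    Poly fun a => nu (n a) (cu a) (t a) (j a) := by
  unfold nu
  exact Poly.add hcu (Poly.mul (Poly.const 8) (Poly.add (Poly.mul ht (Poly.add
    (Poly.mul (Poly.const 2) hn) (Poly.const 7))) hj))

theorem p_homL (h : Bool) {cv : α → ℕ} {g : α → PolyData} (hcv : Poly cv) (hg : Poly g) :
    Poly fun a => homL h (cv a) (g a) := by
  unfold homL
  refine Poly.map (F := fun (a : α) (x : ℤ × List ℕ) =>
    (x.1, x.2.map (fun i => cv a + 8 * i) ++ sL h (2 - x.2.length))) hg ?_
  refine Poly.pair (Poly.fst last) (Poly.append ?_ ?_)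
  · refine Poly.map (F := fun (y : α × (ℤ × List ℕ)) (i : ℕ) => cv y.1 + 8 * i)
      (Poly.snd last) ?_
    exact c8 (lift (lift hcv)) last
  · unfold sL
    cases h
    · exact Poly.const _
    · have h1 : UPoly (fun p : α × (ℤ × List ℕ) => 2 - p.2.2.length) :=
        UPoly.of_le (Poly.sub (Poly.const 2) (Poly.length (Poly.snd last))) (UPoly.const 2)
          (fun _ => Nat.sub_le _ _)
      exact replicateU h1 6

theorem p_ite {P : α → Prop} [DecidablePred P] {f : α → PolyData}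
    (hP : Poly fun a => decide (P a)) (hf : Poly f) :
    Poly fun a => if P a then f a else [] :=
  Poly.ite hP hf (Poly.const _)

theorem dec_and {P Q : α → Prop} [DecidablePred P] [DecidablePred Q]
    (hP : Poly fun a => decide (P a)) (hQ : Poly fun a => decide (Q a)) :
    Poly fun a => decide (P a ∧ Q a) :=
  (Poly.and hP hQ).congr fun a => by simp

theorem p_pdL {l : α → ℕ} {g : α → PolyData} (hl : Poly l) (hg : Poly g) :
    Poly fun a => pdL (l a) (g a) := by
  unfold pdL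
  refine Poly.flatMap (F := fun (x : α) (a : ℤ × List ℕ) =>
    (if a.2.length = 1 ∧ a.2.getD 0 0 = l x then [(a.1, [])] else []) ++
    ((if a.2.length = 2 ∧ a.2.getD 0 0 = l x then [(a.1, [a.2.getD 1 0])] else []) ++
     (if a.2.length = 2 ∧ a.2.getD 1 0 = l x then [(a.1, [a.2.getD 0 0])] else []))) hg ?_
  have hL : Poly (fun p : α × (ℤ × List ℕ) => p.2.2) := Poly.snd last
  have hC : Poly (fun p : α × (ℤ × List ℕ) => p.2.1) := Poly.fst last
  have hlen : Poly (fun p : α × (ℤ × List ℕ) => p.2.2.length) := Poly.length hL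
  have hg0 : Poly (fun p : α × (ℤ × List ℕ) => p.2.2.getD 0 0) :=
    Poly.getD hL (Poly.const 0) (Poly.const 0)
  have hg1 : Poly (fun p : α × (ℤ × List ℕ) => p.2.2.getD 1 0) :=
    Poly.getD hL (Poly.const 1) (Poly.const 0)
  have hl' : Poly (fun p : α × (ℤ × List ℕ) => l p.1) := lift hl
  refine Poly.append ?_ (Poly.append ?_ ?_)
  · exact p_ite (dec_and (Poly.decide_eq hlen (Poly.const 1)) (Poly.decide_eq hg0 hl'))
      (p_one hC (Poly.const []))
  · exact p_ite (dec_and (Poly.decide_eq hlen (Poly.const 2)) (Poly.decide_eq hg0 hl'))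
      (p_one hC (l1 hg1))
  · exact p_ite (dec_and (Poly.decide_eq hlen (Poly.const 2)) (Poly.decide_eq hg1 hl'))
      (p_one hC (l1 hg0))

theorem p_phiL (h : Bool) {el : α → List ℕ} {gs : α → List PolyData} {cv : α → ℕ} (hel : Poly el)
    (hgs : Poly gs) (hcv : Poly cv) : Poly fun a => phiL (el a) (gs a) h (cv a) := by
  unfold phiL
  refine Poly.append ?_ ?_
  · refine Poly.flatMap (F := fun (a : α) (l : ℕ) =>
      [((1 : ℤ), [cv a + 8 * l, cv a + 8 * l] ++ sL h 2),
      (-2, [cv a + 8 * l, 8 * l + 2] ++ sL h 3), (1, [8 * l + 2, 8 * l + 2] ++ sL h 4)]) hel ?_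
    have h1 : Poly (fun p : α × ℕ => cv p.1 + 8 * p.2) := c8 (lift hcv) last
    have h2 : Poly (fun p : α × ℕ => 8 * p.2 + 2) := e8 last 2
    exact Poly.cons (Poly.pair (Poly.const _) (Poly.append (l2 h1 h1) (Poly.const _)))
      (p_two (Poly.const _) (Poly.append (l2 h1 h2) (Poly.const _)) (Poly.const _)
        (Poly.append (l2 h2 h2) (Poly.const _)))
  · refine Poly.flatMap (F := fun (a : α) (g : PolyData) =>
      mulL (homL h (cv a) g) (homL h (cv a) g)) hgs ?_
    exact p_mulL (p_homL h (lift hcv) last) (p_homL h (lift hcv) last)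

theorem p_phiD {el : α → List ℕ} {gs : α → List PolyData} {cv l : α → ℕ} (hel : Poly el)
    (hgs : Poly gs) (hcv : Poly cv) (hl : Poly l) :
    Poly fun a => phiD (el a) (gs a) (cv a) (l a) := by
  unfold phiD
  refine Poly.append ?_ ?_
  · exact p_ite (Poly.decide_mem hl hel) (p_two (Poly.const _) (l1 (c8 hcv hl)) (Poly.const _)
      (l1 (e8 hl 2)))
  · refine Poly.flatMap (F := fun (a : α) (g : PolyData) =>
      mulL [(2, [])] (mulL (homL false (cv a) g) (homL false (cv a) (pdL (l a) g)))) hgs ?_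
    exact p_mulL (Poly.const _) (p_mulL (p_homL false (lift hcv) last)
      (p_homL false (lift hcv) (p_pdL (lift hl) last)))

theorem p_FL (h : Bool) {n T : α → ℕ} {el : α → List ℕ} {gs : α → List PolyData}
    {o cv cu : α → ℕ} (hn : UPoly n) (hT : UPoly T) (hel : Poly el) (hgs : Poly gs) (ho : Poly o)
    (hcv : Poly cv) (hcu : Poly cu) :
    Poly fun a => FL (n a) (T a) (el a) (gs a) (o a) h (cv a) (cu a) := by
  unfold FL
  have hn' := hn.toPoly
  have hT' := hT.toPoly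
  have hco := c8 hcv ho
  refine Poly.append ?_ (Poly.append ?_ (Poly.append ?_ (Poly.append ?_ (Poly.append ?_ ?_))))
  · exact p_mulL (p_two (Poly.const _) (Poly.const _) (Poly.const _)
      (l3 (Poly.const _) hco hco)) (p_phiL h hel hgs hcv)
  · refine Poly.map (F := fun (a : α) (t : ℕ) =>
      ((1 : ℤ), [17, nu (n a) (cu a) t (2 * n a + 6)] ++ sL h 5)) hT.range ?_
    refine Poly.pair (Poly.const _) (Poly.append (l2 (Poly.const _) ?_) (Poly.const _))
    exact p_nu (lift hn') (lift hcu) last (lift (Poly.add (Poly.mul (Poly.const 2) hn')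
      (Poly.const 6)))
  · refine Poly.map (F := fun (a : α) (l : ℕ) =>
      ((-1 : ℤ), [1, 8 * l + 2, 8 * l + 2, 8 * l + 2, 8 * l + 2] ++ sL h 6)) hn.range ?_
    have h2 : Poly (fun p : α × ℕ => 8 * p.2 + 2) := e8 last 2
    exact Poly.pair (Poly.const _) (Poly.append (l5 (Poly.const _) h2 h2 h2 h2) (Poly.const _))
  · refine Poly.map (F := fun (a : α) (l : ℕ) =>
      ((1 : ℤ), [8 * (3 + l) + 1, 8 * l + 2] ++ sL h 6)) hn.range ?_
    exact Poly.pair (Poly.const _) (Poly.append (l2 (e8 (Poly.add (Poly.const 3) last) 1)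
      (e8 last 2)) (Poly.const _))
  · refine Poly.flatMap (F := fun (a : α) (t : ℕ) => (List.range (2 * n a + 2)).map fun j =>
      ((1 : ℤ), [8 * (3 + n a + (t * (2 * n a + 2) + j)) + 1, nu (n a) (cu a) t j] ++ sL h 5))
      hT.range ?_
    have hr : UPoly (fun p : α × ℕ => 2 * n p.1 + 2) :=
      UPoly.add (UPoly.mul (UPoly.const 2) (ulift hn)) (UPoly.const 2)
    refine Poly.map (F := fun (y : α × ℕ) (j : ℕ) =>
      ((1 : ℤ), [8 * (3 + n y.1 + (y.2 * (2 * n y.1 + 2) + j)) + 1,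
        nu (n y.1) (cu y.1) y.2 j] ++ sL h 5)) hr.range ?_
    have a1 : Poly (fun p : (α × ℕ) × ℕ => n p.1.1) := lift (lift hn')
    have a2 : Poly (fun p : (α × ℕ) × ℕ => cu p.1.1) := lift (lift hcu)
    have a3 : Poly (fun p : (α × ℕ) × ℕ => p.1.2) := lift last
    refine Poly.pair (Poly.const _) (Poly.append (l2 (e8 ?_ 1) (p_nu a1 a2 a3 last))
      (Poly.const _))
    exact Poly.add (Poly.add (Poly.const 3) a1) (Poly.add (Poly.mul a3 (Poly.add
      (Poly.mul (Poly.const 2) a1) (Poly.const 2))) last)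
  · refine Poly.flatMap (F := fun (a : α) (t : ℕ) => (List.range (n a)).flatMap fun l =>
      (List.range (n a + 1)).map fun j =>
      ((1 : ℤ), [8 * (3 + n a + T a * (2 * n a + 2) + ((t * n a + l) * (n a + 1) + j)) + 1,
        nu (n a) (cu a) t j, cv a + 8 * l] ++ sL h 4)) hT.range ?_
    refine Poly.flatMap (F := fun (y : α × ℕ) (l : ℕ) => (List.range (n y.1 + 1)).map fun j =>
      ((1 : ℤ), [8 * (3 + n y.1 + T y.1 * (2 * n y.1 + 2) + ((y.2 * n y.1 + l) * (n y.1 + 1) + j))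
        + 1, nu (n y.1) (cu y.1) y.2 j, cv y.1 + 8 * l] ++ sL h 4)) (ulift hn).range ?_
    have hr : UPoly (fun p : (α × ℕ) × ℕ => n p.1.1 + 1) :=
      UPoly.add (ulift (ulift hn)) (UPoly.const 1)
    refine Poly.map (F := fun (z : (α × ℕ) × ℕ) (j : ℕ) =>
      ((1 : ℤ), [8 * (3 + n z.1.1 + T z.1.1 * (2 * n z.1.1 + 2) + ((z.1.2 * n z.1.1 + z.2) *
        (n z.1.1 + 1) + j)) + 1, nu (n z.1.1) (cu z.1.1) z.1.2 j, cv z.1.1 + 8 * z.2] ++ sL h 4))
      hr.range ?_
    have a1 : Poly (fun p : ((α × ℕ) × ℕ) × ℕ => n p.1.1.1) := lift (lift (lift hn'))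
    have a2 : Poly (fun p : ((α × ℕ) × ℕ) × ℕ => cu p.1.1.1) := lift (lift (lift hcu))
    have a3 : Poly (fun p : ((α × ℕ) × ℕ) × ℕ => p.1.1.2) := lift (lift last)
    have a4 : Poly (fun p : ((α × ℕ) × ℕ) × ℕ => p.1.2) := lift last
    have a5 : Poly (fun p : ((α × ℕ) × ℕ) × ℕ => T p.1.1.1) := lift (lift (lift hT'))
    have a6 : Poly (fun p : ((α × ℕ) × ℕ) × ℕ => cv p.1.1.1) := lift (lift (lift hcv))
    refine Poly.pair (Poly.const _) (Poly.append (l3 (e8 ?_ 1) (p_nu a1 a2 a3 last)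
      (c8 a6 a4)) (Poly.const _))
    exact Poly.add (Poly.add (Poly.add (Poly.const 3) a1) (Poly.mul a5 (Poly.add
      (Poly.mul (Poly.const 2) a1) (Poly.const 2)))) (Poly.add (Poly.mul (Poly.add
      (Poly.mul a3 a1) a4) (Poly.add a1 (Poly.const 1))) last)

theorem p_pow (h : S_ppw) {n l t : α → ℕ} (hn : UPoly n) (hl : Poly l) (ht : Poly t) :
    Poly fun a => t a ^ min (l a) (n a) :=
  h α t (fun a => min (l a) (n a)) ht
    (UPoly.of_le (Poly.min hl hn.toPoly) hn (fun _ => min_le_right _ _))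

theorem p_dvL (h : S_ppw) {n T : α → ℕ} {el : α → List ℕ} {gs : α → List PolyData}
    {o cv cu l : α → ℕ} (hn : UPoly n) (hT : UPoly T) (hel : Poly el) (hgs : Poly gs)
    (ho : Poly o) (hcv : Poly cv) (hcu : Poly cu) (hl : Poly l) :
    Poly fun a => dvL (n a) (T a) (el a) (gs a) (o a) (cv a) (cu a) (l a) := by
  unfold dvL
  have hn' := hn.toPoly
  have hT' := hT.toPoly
  have hco := c8 hcv ho
  refine Poly.append ?_ (Poly.append ?_ (Poly.append ?_ (Poly.append ?_ (Poly.append ?_ ?_))))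
  · exact p_ite (Poly.decide_eq hl ho) (p_mulL (p_one (Poly.const _) (l2 (Poly.const _) hco))
      (p_phiL false hel hgs hcv))
  · exact p_mulL (p_two (Poly.const _) (Poly.const _) (Poly.const _)
      (l3 (Poly.const _) hco hco)) (p_phiD hel hgs hcv hl)
  · refine Poly.map (F := fun (a : α) (t : ℕ) =>
      ((((2 * n a + 6) * t ^ min (l a) (n a) : ℕ) : ℤ), [17, nu (n a) (cu a) t (2 * n a + 5)]))
      hT.range ?_
    refine Poly.pair (int_cast (Poly.mul (lift (Poly.add (Poly.mul (Poly.const 2) hn')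
      (Poly.const 6))) (p_pow h (ulift hn) (lift hl) last))) (l2 (Poly.const _) ?_)
    exact p_nu (lift hn') (lift hcu) last (lift (Poly.add (Poly.mul (Poly.const 2) hn')
      (Poly.const 5)))
  · refine Poly.flatMap (F := fun (a : α) (t : ℕ) => (List.range (2 * n a + 2)).map fun j =>
      (((j * t ^ min (l a) (n a) : ℕ) : ℤ), [8 * (3 + n a + (t * (2 * n a + 2) + j)) + 1,
        nu (n a) (cu a) t (j - 1)])) hT.range ?_
    have hr : UPoly (fun p : α × ℕ => 2 * n p.1 + 2) :=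
      UPoly.add (UPoly.mul (UPoly.const 2) (ulift hn)) (UPoly.const 2)
    refine Poly.map (F := fun (y : α × ℕ) (j : ℕ) =>
      (((j * y.2 ^ min (l y.1) (n y.1) : ℕ) : ℤ), [8 * (3 + n y.1 + (y.2 * (2 * n y.1 + 2) + j))
        + 1, nu (n y.1) (cu y.1) y.2 (j - 1)])) hr.range ?_
    have a1 : Poly (fun p : (α × ℕ) × ℕ => n p.1.1) := lift (lift hn')
    have a2 : Poly (fun p : (α × ℕ) × ℕ => cu p.1.1) := lift (lift hcu)
    have a3 : Poly (fun p : (α × ℕ) × ℕ => p.1.2) := lift last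
    refine Poly.pair (int_cast (Poly.mul last (p_pow h (ulift (ulift hn)) (lift (lift hl)) a3)))
      (l2 (e8 ?_ 1) (p_nu a1 a2 a3 (Poly.sub last (Poly.const 1))))
    exact Poly.add (Poly.add (Poly.const 3) a1) (Poly.add (Poly.mul a3 (Poly.add
      (Poly.mul (Poly.const 2) a1) (Poly.const 2))) last)
  · refine Poly.flatMap (F := fun (a : α) (t : ℕ) => (List.range (n a)).flatMap fun l' =>
      (List.range (n a + 1)).map fun j =>
      (((j * t ^ min (l a) (n a) : ℕ) : ℤ), [8 * (3 + n a + T a * (2 * n a + 2) +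
        ((t * n a + l') * (n a + 1) + j)) + 1, nu (n a) (cu a) t (j - 1), cv a + 8 * l']))
      hT.range ?_
    refine Poly.flatMap (F := fun (y : α × ℕ) (l' : ℕ) => (List.range (n y.1 + 1)).map fun j =>
      (((j * y.2 ^ min (l y.1) (n y.1) : ℕ) : ℤ), [8 * (3 + n y.1 + T y.1 * (2 * n y.1 + 2) +
        ((y.2 * n y.1 + l') * (n y.1 + 1) + j)) + 1, nu (n y.1) (cu y.1) y.2 (j - 1),
        cv y.1 + 8 * l'])) (ulift hn).range ?_
    have hr : UPoly (fun p : (α × ℕ) × ℕ => n p.1.1 + 1) :=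
      UPoly.add (ulift (ulift hn)) (UPoly.const 1)
    refine Poly.map (F := fun (z : (α × ℕ) × ℕ) (j : ℕ) =>
      (((j * z.1.2 ^ min (l z.1.1) (n z.1.1) : ℕ) : ℤ), [8 * (3 + n z.1.1 + T z.1.1 *
        (2 * n z.1.1 + 2) + ((z.1.2 * n z.1.1 + z.2) * (n z.1.1 + 1) + j)) + 1,
        nu (n z.1.1) (cu z.1.1) z.1.2 (j - 1), cv z.1.1 + 8 * z.2])) hr.range ?_
    have a1 : Poly (fun p : ((α × ℕ) × ℕ) × ℕ => n p.1.1.1) := lift (lift (lift hn'))
    have a2 : Poly (fun p : ((α × ℕ) × ℕ) × ℕ => cu p.1.1.1) := lift (lift (lift hcu))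
    have a3 : Poly (fun p : ((α × ℕ) × ℕ) × ℕ => p.1.1.2) := lift (lift last)
    have a4 : Poly (fun p : ((α × ℕ) × ℕ) × ℕ => p.1.2) := lift last
    have a5 : Poly (fun p : ((α × ℕ) × ℕ) × ℕ => T p.1.1.1) := lift (lift (lift hT'))
    have a6 : Poly (fun p : ((α × ℕ) × ℕ) × ℕ => cv p.1.1.1) := lift (lift (lift hcv))
    refine Poly.pair (int_cast (Poly.mul last (p_pow h (ulift (ulift (ulift hn)))
      (lift (lift (lift hl))) a3))) (l3 (e8 ?_ 1) (p_nu a1 a2 a3 (Poly.sub last (Poly.const 1)))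
      (c8 a6 a4))
    exact Poly.add (Poly.add (Poly.add (Poly.const 3) a1) (Poly.mul a5 (Poly.add
      (Poly.mul (Poly.const 2) a1) (Poly.const 2)))) (Poly.add (Poly.mul (Poly.add
      (Poly.mul a3 a1) a4) (Poly.add a1 (Poly.const 1))) last)
  · refine Poly.flatMap (F := fun (a : α) (t : ℕ) => (List.range (n a + 1)).map fun j =>
      ((1 : ℤ), [8 * (3 + n a + T a * (2 * n a + 2) + ((t * n a + l a) * (n a + 1) + j)) + 1,
        nu (n a) (cu a) t j])) hT.range ?_
    have hr : UPoly (fun p : α × ℕ => n p.1 + 1) := UPoly.add (ulift hn) (UPoly.const 1)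
    refine Poly.map (F := fun (y : α × ℕ) (j : ℕ) =>
      ((1 : ℤ), [8 * (3 + n y.1 + T y.1 * (2 * n y.1 + 2) + ((y.2 * n y.1 + l y.1) *
        (n y.1 + 1) + j)) + 1, nu (n y.1) (cu y.1) y.2 j])) hr.range ?_
    have a1 : Poly (fun p : (α × ℕ) × ℕ => n p.1.1) := lift (lift hn')
    have a2 : Poly (fun p : (α × ℕ) × ℕ => cu p.1.1) := lift (lift hcu)
    have a3 : Poly (fun p : (α × ℕ) × ℕ => p.1.2) := lift last
    have a4 : Poly (fun p : (α × ℕ) × ℕ => l p.1.1) := lift (lift hl)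
    have a5 : Poly (fun p : (α × ℕ) × ℕ => T p.1.1) := lift (lift hT')
    refine Poly.pair (Poly.const _) (l2 (e8 ?_ 1) (p_nu a1 a2 a3 last))
    exact Poly.add (Poly.add (Poly.add (Poly.const 3) a1) (Poly.mul a5 (Poly.add
      (Poly.mul (Poly.const 2) a1) (Poly.const 2)))) (Poly.add (Poly.mul (Poly.add
      (Poly.mul a3 a1) a4) (Poly.add a1 (Poly.const 1))) last)

theorem p_dxL {el : α → List ℕ} {o cv l : α → ℕ} (hel : Poly el) (ho : Poly o) (hcv : Poly cv)
    (hl : Poly l) : Poly fun a => dxL (el a) (o a) (cv a) (l a) := by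
  unfold dxL
  have hco := c8 hcv ho
  refine Poly.append ?_ ?_
  · exact p_ite (Poly.decide_mem hl hel) (p_mulL (p_two (Poly.const _) (Poly.const _)
      (Poly.const _) (l3 (Poly.const _) hco hco)) (p_two (Poly.const _) (l1 (c8 hcv hl))
      (Poly.const _) (l1 (e8 hl 2))))
  · exact p_two (Poly.const _) (l4 (Poly.const _) (e8 hl 2) (e8 hl 2) (e8 hl 2)) (Poly.const _)
      (l1 (e8 (Poly.add (Poly.const 3) hl) 1))

/-- **Job PLL.** -/
theorem pll (h : S_ppw) : S_pll := by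
  intro α _ n T el gs o cv cu l hn hT hel hgs ho hcv hcu hl
  exact ⟨fun b => p_FL b hn hT hel hgs ho hcv hcu, p_dvL h hn hT hel hgs ho hcv hcu hl,
    p_dxL hel ho hcv hl, fun p hp => p_negL hp, fun p q hp hq => p_mulL hp hq⟩

end Pool.Agent.NPC.Q102IP
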